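import Mathlib

namespace Pool.Agent.Results.MP_b4d381_co.InfiniteMinimalDSF

/-- A finite simple graph: a number `n` of vertices and a simple graph on `Fin n`. -/
abbrev FinGraph : Type := Σ n : ℕ, SimpleGraph (Fin n)

/-- The degree sequence of a graph on `Fin n`, as a multiset of `n` natural numbers. -/
noncomputable def degSeq {n : ℕ} (G : SimpleGraph (Fin n)) : Multiset ℕ :=
  (Finset.univ : Finset (Fin n)).val.map (fun v => (G.neighborSet v).ncard)

/-- `G` is `F`-free: no member of `F` is isomorphic to an induced subgraph of `G`. -/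
def IsFree (F : Set FinGraph) (G : FinGraph) : Prop :=
  ∀ X ∈ F, IsEmpty (X.2 ↪g G.2)

/-- `F` is degree-sequence-forcing: it is nonempty and, for graphs with equal degree sequences,
if one is `F`-free then so is the other. -/
def IsDSF (F : Set FinGraph) : Prop :=
  F.Nonempty ∧ ∀ (n : ℕ) (H H' : SimpleGraph (Fin n)), degSeq H = degSeq H' →
    IsFree F ⟨n, H⟩ → IsFree F ⟨n, H'⟩

/-- `F` is a minimal degree-sequence-forcing set. -/
def IsMinimalDSF (F : Set FinGraph) : Prop :=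
  IsDSF F ∧ ∀ F' : Set FinGraph, F' ⊂ F → F'.Nonempty → ¬ IsDSF F'

/-! ### The forcing graph on eleven vertices -/

/-- adjacency code of the eleven-vertex graph: `0,1,2` independent, `3..7` a clique complete to
`8,9,10`, and `9,10` adjacent. -/
def h0 (u v : Fin 11) : Bool :=
  (u == 0 && (v == 3 || v == 4)) || (u == 1 && (v == 5 || v == 6)) ||
  (u == 2 && (v == 7 || v == 8)) ||
  (decide (3 ≤ u) && decide (u ≤ 7) && decide (3 ≤ v)) || (u == 9 && v == 10)

/-- the eleven-vertex graph -/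
def H0 : SimpleGraph (Fin 11) where
  Adj u v := u ≠ v ∧ (h0 u v = true ∨ h0 v u = true)
  symm := ⟨fun _ _ h => ⟨h.1.symm, h.2.symm⟩⟩
  loopless := ⟨fun _ h => h.1 rfl⟩

instance : DecidableRel H0.Adj := fun u v => by unfold H0; infer_instance

/-- same degree at every vertex -/
def SameDeg {V : Type*} (G H : SimpleGraph V) : Prop :=
  ∀ v, (G.neighborSet v).ncard = (H.neighborSet v).ncard

/-- some graph with the same degrees contains `H0` as an induced subgraph -/
def Forces {V : Type*} (G : SimpleGraph V) : Prop :=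
  ∃ H : SimpleGraph V, SameDeg G H ∧ Nonempty (H0 ↪g H)

theorem Forces.mono {V W : Type*} [Finite V] [Finite W] {G : SimpleGraph V} {G' : SimpleGraph W}
    (φ : G ↪g G') (h : Forces G) : Forces G' := by
  classical
  obtain ⟨H, hdeg, ⟨e⟩⟩ := h
  let H' : SimpleGraph W :=
    { Adj := fun a b => (∃ u v, φ u = a ∧ φ v = b ∧ H.Adj u v) ∨
        (G'.Adj a b ∧ ¬ (a ∈ Set.range φ ∧ b ∈ Set.range φ))
      symm := ⟨by
        rintro a b (⟨u, v, h1, h2, h3⟩ | ⟨h1, h2⟩)
        · exact Or.inl ⟨v, u, h2, h1, h3.symm⟩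
        · exact Or.inr ⟨h1.symm, fun h => h2 ⟨h.2, h.1⟩⟩⟩
      loopless := ⟨by
        rintro a (⟨u, v, h1, h2, h3⟩ | ⟨h1, h2⟩)
        · have : u = v := φ.injective (h1.trans h2.symm)
          subst this
          exact H.loopless.irrefl _ h3
        · exact G'.loopless.irrefl _ h1⟩ }
  have hadj : ∀ u v, H'.Adj (φ u) (φ v) ↔ H.Adj u v := by
    intro u v
    constructor
    · rintro (⟨u', v', h1, h2, h3⟩ | ⟨h1, h2⟩)
      · rw [φ.injective h1, φ.injective h2] at h3
        exact h3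
      · exact absurd ⟨⟨u, rfl⟩, ⟨v, rfl⟩⟩ h2
    · intro h
      exact Or.inl ⟨u, v, rfl, rfl, h⟩
  refine ⟨H', ?_, ⟨e.trans ⟨φ.toEmbedding, ?_⟩⟩⟩
  · intro a
    by_cases ha : a ∈ Set.range φ
    · obtain ⟨v, rfl⟩ := ha
      have h1 : G'.neighborSet (φ v) = φ '' (G.neighborSet v) ∪
          (G'.neighborSet (φ v) \ Set.range φ) := by
        ext b
        simp only [SimpleGraph.mem_neighborSet, Set.mem_union, Set.mem_image, Set.mem_sdiff]
        constructor
        · intro hb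
          by_cases hbr : b ∈ Set.range φ
          · obtain ⟨w, rfl⟩ := hbr
            exact Or.inl ⟨w, φ.map_adj_iff.1 hb, rfl⟩
          · exact Or.inr ⟨hb, hbr⟩
        · rintro (⟨w, hw, rfl⟩ | ⟨hb, _⟩)
          · exact φ.map_adj_iff.2 hw
          · exact hb
      have h2 : H'.neighborSet (φ v) = φ '' (H.neighborSet v) ∪
          (G'.neighborSet (φ v) \ Set.range φ) := by
        ext b
        simp only [SimpleGraph.mem_neighborSet, Set.mem_union, Set.mem_image, Set.mem_sdiff]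
        constructor
        · rintro (⟨u', v', h1, h2, h3⟩ | ⟨h1, h2⟩)
          · rw [φ.injective h1] at h3
            exact Or.inl ⟨v', h3, h2⟩
          · exact Or.inr ⟨h1, fun h => h2 ⟨⟨v, rfl⟩, h⟩⟩
        · rintro (⟨w, hw, rfl⟩ | ⟨hb, hbr⟩)
          · exact (hadj v w).2 hw
          · exact Or.inr ⟨hb, fun h => hbr h.2⟩
      have hd : ∀ S : Set V, Disjoint (φ '' S) (G'.neighborSet (φ v) \ Set.range φ) := by
        intro S
        rw [Set.disjoint_left]
        rintro _ ⟨w, _, rfl⟩ h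
        exact h.2 ⟨w, rfl⟩
      rw [h1, h2, Set.ncard_union_eq (hd _) (Set.toFinite _) (Set.toFinite _),
        Set.ncard_union_eq (hd _) (Set.toFinite _) (Set.toFinite _),
        Set.ncard_image_of_injective _ φ.injective, Set.ncard_image_of_injective _ φ.injective,
        hdeg v]
    · have : H'.neighborSet a = G'.neighborSet a := by
        ext b
        simp only [SimpleGraph.mem_neighborSet]
        constructor
        · rintro (⟨u', v', h1, h2, h3⟩ | ⟨h1, h2⟩)
          · exact absurd ⟨u', h1⟩ ha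
          · exact h1
        · intro h
          exact Or.inr ⟨h, fun h' => ha h'.1⟩
      rw [this]
  · intro u v
    exact hadj u v

theorem exists_perm_of_degSeq_eq {n : ℕ} (H H' : SimpleGraph (Fin n)) (h : degSeq H = degSeq H') :
    ∃ σ : Equiv.Perm (Fin n), ∀ v, (H'.neighborSet (σ v)).ncard = (H.neighborSet v).ncard := by
  classical
  have hcard : ∀ c : ℕ, Fintype.card {a // (H.neighborSet a).ncard = c} =
      Fintype.card {a // (H'.neighborSet a).ncard = c} := by
    intro c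
    have h1 := congrArg (Multiset.count c) h
    unfold degSeq at h1
    rw [Multiset.count_map, Multiset.count_map] at h1
    rw [Fintype.card_subtype, Fintype.card_subtype]
    have e1 : ∀ K : SimpleGraph (Fin n),
        (Finset.univ.filter (fun a => (K.neighborSet a).ncard = c)).card =
        (Multiset.filter (fun a => c = (K.neighborSet a).ncard)
          (Finset.univ : Finset (Fin n)).val).card := by
      intro K
      rw [← Finset.filter_val, Finset.card_val]
      congr 1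
      ext a
      simp [eq_comm]
    rw [e1, e1, h1]
  let e : ∀ c : ℕ, {a // (fun a => (H.neighborSet a).ncard) a = c} ≃
      {a // (fun a => (H'.neighborSet a).ncard) a = c} := fun c =>
    Fintype.equivOfCardEq (hcard c)
  exact ⟨Equiv.ofFiberEquiv e, fun v => Equiv.ofFiberEquiv_map e v⟩

theorem Forces.of_degSeq {n : ℕ} {H H' : SimpleGraph (Fin n)} (h : degSeq H = degSeq H')
    (hF : Forces H) : Forces H' := by
  obtain ⟨σ, hσ⟩ := exists_perm_of_degSeq_eq H H' h
  have e : H ↪g H.comap σ.symm := ⟨σ.toEmbedding, by intro u v; simp⟩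
  obtain ⟨K, hK, hK'⟩ := Forces.mono e hF
  refine ⟨K, fun v => ?_, hK'⟩
  rw [← hK v]
  have h1 := hσ (σ.symm v)
  rw [Equiv.apply_symm_apply] at h1
  rw [h1]
  have h2 : (H.comap σ.symm).neighborSet v = σ '' (H.neighborSet (σ.symm v)) := by
    ext w
    simp only [SimpleGraph.mem_neighborSet, Set.mem_image, SimpleGraph.comap_adj]
    constructor
    · intro hw
      exact ⟨σ.symm w, hw, by simp⟩
    · rintro ⟨w', hw', rfl⟩
      simpa using hw'
  rw [h2, Set.ncard_image_of_injective _ σ.injective]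

/-! ### The cut invariant -/

theorem key_aux (A B C D E F : Prop) [Decidable A] [Decidable B] [Decidable C] [Decidable D]
    [Decidable E] [Decidable F] (h1 : ¬ (A ∧ B)) (h2 : F → E) :
    (if (A ∧ ¬ D ∧ E ∧ ¬ F) ∨ (B ∧ ¬ C ∧ F) then (1 : ℤ) else 0) =
      (if A ∧ ¬ D ∧ E then (1 : ℤ) else 0) +
      ((if B then (1 : ℤ) else 0) - (if A then (1 : ℤ) else 0)) * (if F then (1 : ℤ) else 0) +
      ((if A then (1 : ℤ) else 0) * (if D then (1 : ℤ) else 0) -
        (if B then (1 : ℤ) else 0) * (if C then (1 : ℤ) else 0)) *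
        (if F then (1 : ℤ) else 0) := by
  by_cases A <;> by_cases B <;> by_cases C <;> by_cases D <;> by_cases E <;> by_cases F <;>
    simp_all

section viol
variable {W : Type*} [Fintype W]

open Classical in
/-- the set of violating pairs of a cut -/
noncomputable def violSet (G : SimpleGraph W) (X Y : Finset W) : Finset (W × W) :=
  Finset.univ.filter (fun p : W × W =>
    (p.1 ∈ X ∧ p.2 ∉ Y ∧ p.2 ≠ p.1 ∧ ¬ G.Adj p.1 p.2) ∨ (p.1 ∈ Y ∧ p.2 ∉ X ∧ G.Adj p.1 p.2))

theorem mem_violSet (G : SimpleGraph W) (X Y : Finset W) (p : W × W) :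
    p ∈ violSet G X Y ↔ (p.1 ∈ X ∧ p.2 ∉ Y ∧ p.2 ≠ p.1 ∧ ¬ G.Adj p.1 p.2) ∨
      (p.1 ∈ Y ∧ p.2 ∉ X ∧ G.Adj p.1 p.2) := by
  classical
  simp [violSet]

open Classical in
theorem violSet_card (G : SimpleGraph W) (X Y : Finset W) (hXY : Disjoint X Y) :
    ((violSet G X Y).card : ℤ) =
      (∑ u : W, ∑ z : W, (if u ∈ X ∧ z ∉ Y ∧ z ≠ u then (1 : ℤ) else 0)) +
      ∑ u : W, ((if u ∈ Y then (1 : ℤ) else 0) - (if u ∈ X then (1 : ℤ) else 0)) *
        ((G.neighborSet u).ncard : ℤ) := by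
  have hdeg : ∀ u, ((G.neighborSet u).ncard : ℤ) = ∑ z : W, if G.Adj u z then (1 : ℤ) else 0 := by
    intro u
    have : G.neighborSet u = ↑(Finset.univ.filter (fun z => G.Adj u z)) := by
      ext z; simp
    rw [this, Set.ncard_coe_finset, Finset.card_filter]
    push_cast
    rfl
  have h1 : ((violSet G X Y).card : ℤ) = ∑ u : W, ∑ z : W,
      (if (u ∈ X ∧ z ∉ Y ∧ z ≠ u ∧ ¬ G.Adj u z) ∨ (u ∈ Y ∧ z ∉ X ∧ G.Adj u z)
        then (1 : ℤ) else 0) := by
    rw [violSet, Finset.card_filter, Fintype.sum_prod_type]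
    push_cast
    rfl
  have key : ∀ u z : W,
      (if (u ∈ X ∧ z ∉ Y ∧ z ≠ u ∧ ¬ G.Adj u z) ∨ (u ∈ Y ∧ z ∉ X ∧ G.Adj u z)
        then (1 : ℤ) else 0) =
      (if u ∈ X ∧ z ∉ Y ∧ z ≠ u then (1 : ℤ) else 0) +
      ((if u ∈ Y then (1 : ℤ) else 0) - (if u ∈ X then (1 : ℤ) else 0)) *
        (if G.Adj u z then (1 : ℤ) else 0) +
      ((if u ∈ X then (1 : ℤ) else 0) * (if z ∈ Y then (1 : ℤ) else 0) -
        (if u ∈ Y then (1 : ℤ) else 0) * (if z ∈ X then (1 : ℤ) else 0)) *
        (if G.Adj u z then (1 : ℤ) else 0) := by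
    intro u z
    have hd : ¬ (u ∈ X ∧ u ∈ Y) := fun h => (Finset.disjoint_left.1 hXY) h.1 h.2
    exact key_aux _ _ _ _ _ _ hd (fun hadj => hadj.ne')
  have hanti : ∑ u : W, ∑ z : W,
      ((if u ∈ X then (1 : ℤ) else 0) * (if z ∈ Y then (1 : ℤ) else 0) -
        (if u ∈ Y then (1 : ℤ) else 0) * (if z ∈ X then (1 : ℤ) else 0)) *
        (if G.Adj u z then (1 : ℤ) else 0) = 0 := by
    set t : W → W → ℤ := fun u z =>
      ((if u ∈ X then (1 : ℤ) else 0) * (if z ∈ Y then (1 : ℤ) else 0) -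
        (if u ∈ Y then (1 : ℤ) else 0) * (if z ∈ X then (1 : ℤ) else 0)) *
        (if G.Adj u z then (1 : ℤ) else 0) with ht
    have hsymm : ∀ u z, t z u = - t u z := by
      intro u z
      simp only [ht, G.adj_comm z u]
      ring
    have h2 : ∑ u : W, ∑ z : W, t u z = ∑ u : W, ∑ z : W, t z u := Finset.sum_comm
    have h3 : ∑ u : W, ∑ z : W, t z u = - ∑ u : W, ∑ z : W, t u z := by
      rw [← Finset.sum_neg_distrib]
      refine Finset.sum_congr rfl fun u _ => ?_
      rw [← Finset.sum_neg_distrib]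
      exact Finset.sum_congr rfl fun z _ => hsymm u z
    linarith
  rw [h1]
  simp only [key, Finset.sum_add_distrib]
  rw [hanti, add_zero]
  congr 1
  apply Finset.sum_congr rfl
  intro u _
  rw [hdeg u, Finset.mul_sum]

theorem violSet_card_eq {G H : SimpleGraph W} (h : SameDeg G H) (X Y : Finset W)
    (hXY : Disjoint X Y) : (violSet G X Y).card = (violSet H X Y).card := by
  classical
  have h1 := violSet_card G X Y hXY
  have h2 := violSet_card H X Y hXY
  have h3 : ∀ u, ((G.neighborSet u).ncard : ℤ) = ((H.neighborSet u).ncard : ℤ) := by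
    intro u
    rw [h u]
  simp only [h3] at h1
  rw [← h1] at h2
  exact_mod_cast h2.symm

end viol

/-! ### The family of graphs with a long chain -/

/-- vertices: the eleven core vertices and a chain of `2 k` vertices -/
abbrev V (k : ℕ) : Type := Fin 11 ⊕ Fin (2 * k)

/-- adjacency between a core vertex and a chain vertex before the switch -/
def crossH (u i : ℕ) : Prop := (3 ≤ u ∧ u < 8) ∨ (8 ≤ u ∧ i % 2 = 0)

/-- adjacency inside the chain before the switch -/
def chainH (i j : ℕ) : Prop :=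
  (i ≠ j ∧ i % 2 = 0 ∧ j % 2 = 0) ∨ (i % 2 = 0 ∧ j % 2 = 1 ∧ i < j) ∨
    (i % 2 = 1 ∧ j % 2 = 0 ∧ j < i)

/-- adjacency between a core vertex and a chain vertex after the switch -/
def crossG (k u i : ℕ) : Prop := crossH u i ∨ (u = 2 ∧ i = 0) ∨ (u = 8 ∧ i + 1 = 2 * k)

/-- adjacency inside the chain after the switch -/
def chainG (i j : ℕ) : Prop :=
  (i ≠ j ∧ i % 2 = 0 ∧ j % 2 = 0) ∨ (i % 2 = 0 ∧ j % 2 = 1 ∧ (i + 1 < j ∨ i = j + 1)) ∨
    (i % 2 = 1 ∧ j % 2 = 0 ∧ (j + 1 < i ∨ j = i + 1))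

/-- the graph containing `H0` -/
def Hk (k : ℕ) : SimpleGraph (V k) where
  Adj x y := match x, y with
    | .inl u, .inl v => H0.Adj u v
    | .inl u, .inr i => crossH u i
    | .inr i, .inl u => crossH u i
    | .inr i, .inr j => chainH i j
  symm := ⟨by
    rintro (u | i) (v | j) h
    · exact H0.symm.symm _ _ h
    · exact h
    · exact h
    · simp only [chainH] at h ⊢
      omega⟩
  loopless := ⟨by
    rintro (u | i) h
    · exact H0.loopless.irrefl _ h
    · simp only [chainH] at h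
      omega⟩

/-- the switched graph -/
def Gk (k : ℕ) : SimpleGraph (V k) where
  Adj x y := match x, y with
    | .inl u, .inl v => H0.Adj u v ∧ ¬ (u = 2 ∧ v = 8) ∧ ¬ (u = 8 ∧ v = 2)
    | .inl u, .inr i => crossG k u i
    | .inr i, .inl u => crossG k u i
    | .inr i, .inr j => chainG i j
  symm := ⟨by
    rintro (u | i) (v | j) h
    · exact ⟨H0.symm.symm _ _ h.1, fun h' => h.2.2 ⟨h'.2, h'.1⟩, fun h' => h.2.1 ⟨h'.2, h'.1⟩⟩
    · exact h
    · exact h
    · simp only [chainG] at h ⊢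
      omega⟩
  loopless := ⟨by
    rintro (u | i) h
    · exact H0.loopless.irrefl _ h.1
    · simp only [chainG] at h
      omega⟩

@[simp] theorem Hk_ll (k : ℕ) (u v : Fin 11) : (Hk k).Adj (.inl u) (.inl v) ↔ H0.Adj u v := Iff.rfl
@[simp] theorem Hk_lr (k : ℕ) (u : Fin 11) (i : Fin (2 * k)) :
    (Hk k).Adj (.inl u) (.inr i) ↔ crossH u i := Iff.rfl
@[simp] theorem Hk_rl (k : ℕ) (u : Fin 11) (i : Fin (2 * k)) :
    (Hk k).Adj (.inr i) (.inl u) ↔ crossH u i := Iff.rfl
@[simp] theorem Hk_rr (k : ℕ) (i j : Fin (2 * k)) :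
    (Hk k).Adj (.inr i) (.inr j) ↔ chainH i j := Iff.rfl
@[simp] theorem Gk_ll (k : ℕ) (u v : Fin 11) : (Gk k).Adj (.inl u) (.inl v) ↔
    (H0.Adj u v ∧ ¬ (u = 2 ∧ v = 8) ∧ ¬ (u = 8 ∧ v = 2)) := Iff.rfl
@[simp] theorem Gk_lr (k : ℕ) (u : Fin 11) (i : Fin (2 * k)) :
    (Gk k).Adj (.inl u) (.inr i) ↔ crossG k u i := Iff.rfl
@[simp] theorem Gk_rl (k : ℕ) (u : Fin 11) (i : Fin (2 * k)) :
    (Gk k).Adj (.inr i) (.inl u) ↔ crossG k u i := Iff.rfl
@[simp] theorem Gk_rr (k : ℕ) (i j : Fin (2 * k)) :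
    (Gk k).Adj (.inr i) (.inr j) ↔ chainG i j := Iff.rfl

theorem exch {W : Type*} {G H : SimpleGraph W} {v s t : W}
    (hs : H.Adj v s) (ht : ¬ H.Adj v t)
    (h : ∀ w, G.Adj v w ↔ (w = t ∨ (H.Adj v w ∧ w ≠ s))) :
    (G.neighborSet v).ncard = (H.neighborSet v).ncard := by
  have h1 : G.neighborSet v = insert t (H.neighborSet v \ {s}) := by
    ext w
    simp only [SimpleGraph.mem_neighborSet, Set.mem_insert_iff, Set.mem_sdiff,
      Set.mem_singleton_iff]
    exact h w
  rw [h1]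
  exact Set.ncard_exchange (by simpa using ht) (by simpa using hs)

theorem same_nbr {W : Type*} {G H : SimpleGraph W} {v : W}
    (h : ∀ w, G.Adj v w ↔ H.Adj v w) :
    (G.neighborSet v).ncard = (H.neighborSet v).ncard := by
  have h1 : G.neighborSet v = H.neighborSet v := by
    ext w
    exact h w
  rw [h1]

theorem inl_eq_iff {k : ℕ} (u v : Fin 11) : (Sum.inl u : V k) = Sum.inl v ↔ u = v := by simp

theorem sameDeg_Gk_Hk (k : ℕ) (hk : 1 ≤ k) : SameDeg (Gk k) (Hk k) := by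
  rintro (u | i)
  · by_cases h2 : u = 2
    · subst h2
      refine exch (s := .inl 8) (t := .inr ⟨0, by omega⟩) (by rw [Hk_ll]; decide) ?_ ?_
      · simp [crossH]
      · rintro (v | j)
        · simp only [Gk_ll, Hk_ll]
          revert v
          simp
        · simp only [Gk_lr, Hk_lr, crossG, crossH]
          simp [Fin.ext_iff]
    · by_cases h8 : u = 8
      · subst h8
        refine exch (s := .inl 2) (t := .inr ⟨2 * k - 1, by omega⟩) (by rw [Hk_ll]; decide) ?_ ?_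
        · simp [crossH]
          omega
        · rintro (v | j)
          · simp only [Gk_ll, Hk_ll]
            revert v
            simp
          · simp only [Gk_lr, Hk_lr, crossG, crossH]
            simp [Fin.ext_iff]
            omega
      · apply same_nbr
        rintro (v | j)
        · simp [h2, h8]
        · have h2' : (u : ℕ) ≠ 2 := fun h => h2 (Fin.ext h)
          have h8' : (u : ℕ) ≠ 8 := fun h => h8 (Fin.ext h)
          simp [crossG, h2', h8']
  · have hi := i.2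
    have v2 : ((2 : Fin 11) : ℕ) = 2 := rfl
    have v8 : ((8 : Fin 11) : ℕ) = 8 := rfl
    by_cases hpar : (i : ℕ) % 2 = 0
    · by_cases h0 : (i : ℕ) = 0
      · refine exch (s := .inr ⟨i + 1, by omega⟩) (t := .inl 2) ?_ ?_ ?_
        · simp only [Hk_rr, chainH]; omega
        · simp only [Hk_rl, crossH, v2]; omega
        · rintro (v | j)
          · simp only [Gk_rl, Hk_rl, crossG, crossH, Sum.inl.injEq, reduceCtorEq, Fin.ext_iff, v2,
              ne_eq, not_false_eq_true, and_true]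
            omega
          · simp only [Gk_rr, Hk_rr, chainG, chainH, Sum.inr.injEq, reduceCtorEq, Fin.ext_iff,
              ne_eq, false_or]
            omega
      · refine exch (s := .inr ⟨i + 1, by omega⟩) (t := .inr ⟨i - 1, by omega⟩) ?_ ?_ ?_
        · simp only [Hk_rr, chainH]; omega
        · simp only [Hk_rr, chainH]; omega
        · rintro (v | j)
          · simp only [Gk_rl, Hk_rl, crossG, crossH, reduceCtorEq, ne_eq, not_false_eq_true,
              and_true, false_or]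
            omega
          · simp only [Gk_rr, Hk_rr, chainG, chainH, Sum.inr.injEq, Fin.ext_iff, ne_eq]
            omega
    · by_cases h1 : (i : ℕ) + 1 = 2 * k
      · refine exch (s := .inr ⟨i - 1, by omega⟩) (t := .inl 8) ?_ ?_ ?_
        · simp only [Hk_rr, chainH]; omega
        · simp only [Hk_rl, crossH, v8]; omega
        · rintro (v | j)
          · simp only [Gk_rl, Hk_rl, crossG, crossH, Sum.inl.injEq, reduceCtorEq, Fin.ext_iff, v8,
              ne_eq, not_false_eq_true, and_true]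
            omega
          · simp only [Gk_rr, Hk_rr, chainG, chainH, Sum.inr.injEq, reduceCtorEq, Fin.ext_iff,
              ne_eq, false_or]
            omega
      · refine exch (s := .inr ⟨i - 1, by omega⟩) (t := .inr ⟨i + 1, by omega⟩) ?_ ?_ ?_
        · simp only [Hk_rr, chainH]; omega
        · simp only [Hk_rr, chainH]; omega
        · rintro (v | j)
          · simp only [Gk_rl, Hk_rl, crossG, crossH, reduceCtorEq, ne_eq, not_false_eq_true,
              and_true, false_or]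
            omega
          · simp only [Gk_rr, Hk_rr, chainG, chainH, Sum.inr.injEq, Fin.ext_iff, ne_eq]
            omega

theorem forces_Gk (k : ℕ) (hk : 1 ≤ k) : Forces (Gk k) :=
  ⟨Hk k, sameDeg_Gk_Hk k hk, ⟨⟨⟨Sum.inl, Sum.inl_injective⟩, by intro u v; simp⟩⟩⟩

/-! ### Cuts of the family -/

/-- position along the chain -/
def pos (k : ℕ) : V k → ℕ
  | .inl u => if (u : ℕ) < 8 then 0 else 2 * k + 1
  | .inr i => i + 1

/-- clique side -/
def tyB (k : ℕ) : V k → Prop
  | .inl u => 3 ≤ (u : ℕ) ∧ (u : ℕ) < 8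
  | .inr i => (i : ℕ) % 2 = 0

/-- independent side -/
def tyA (k : ℕ) : V k → Prop
  | .inl u => (u : ℕ) < 3
  | .inr i => (i : ℕ) % 2 = 1

/-- the vertex following position `c` -/
def nxt (k c : ℕ) : V k := if h : c < 2 * k then .inr ⟨c, h⟩ else .inl 8

theorem H0_facts_A : ∀ u v : Fin 11, (u : ℕ) < 3 → H0.Adj u v →
    (3 ≤ (v : ℕ) ∧ (v : ℕ) < 8) ∨ (u = 2 ∧ v = 8) := by decide

theorem H0_facts_B : ∀ u v : Fin 11, 3 ≤ (u : ℕ) → (u : ℕ) < 8 → v ≠ u → ¬ H0.Adj u v →
    (v : ℕ) < 3 := by decide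

theorem viol_B (k c : ℕ) (hc1 : 1 ≤ c) (u z : V k) (hu : tyB k u)
    (hpu : pos k u ≤ c) (hz : ¬ (tyA k z ∧ pos k z ≤ c)) (hne : z ≠ u)
    (hadj : ¬ (Gk k).Adj u z) : pos k u = c ∧ z = nxt k c := by
  rcases u with u | i <;> rcases z with v | j
  · exfalso
    simp only [tyB, tyA, pos] at *
    have := H0_facts_B u v hu.1 hu.2 (fun h => hne (by rw [h])) (fun h => hadj ⟨h, by
      constructor
      · rintro ⟨h1, -⟩
        rw [h1] at hu
        exact absurd hu.1 (by decide)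
      · rintro ⟨h1, -⟩
        rw [h1] at hu
        exact absurd hu.2 (by decide)⟩)
    apply hz
    refine ⟨this, ?_⟩
    rw [if_pos (by omega)]
    omega
  · exfalso
    simp only [tyB, Gk_lr, crossG, crossH] at *
    omega
  · exfalso
    simp only [tyB, tyA, pos, Gk_rl, crossG, crossH] at *
    have hj := i.2
    split_ifs at hz <;> omega
  · simp only [tyB, tyA, pos, Gk_rr, chainG, ne_eq, Sum.inr.injEq, Fin.ext_iff] at *
    have hi := i.2
    have hj := j.2
    have h1 : (j : ℕ) = i + 1 ∧ (i : ℕ) + 1 = c := by omega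
    refine ⟨h1.2, ?_⟩
    unfold nxt
    rw [dif_pos (by omega)]
    congr 1
    apply Fin.ext
    simp only
    omega

theorem viol_A (k c : ℕ) (hc1 : 1 ≤ c) (hc2 : c ≤ 2 * k) (u z : V k) (hu : tyA k u)
    (hpu : pos k u ≤ c) (hz : ¬ (tyB k z ∧ pos k z ≤ c))
    (hadj : (Gk k).Adj u z) : pos k u = c ∧ z = nxt k c := by
  rcases u with u | i <;> rcases z with v | j
  · exfalso
    simp only [tyB, tyA, pos, Gk_ll] at *
    rcases H0_facts_A u v hu hadj.1 with h | h
    · apply hz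
      refine ⟨h, ?_⟩
      rw [if_pos h.2]
      omega
    · exact hadj.2.1 h
  · exfalso
    simp only [tyB, tyA, pos, Gk_lr, crossG, crossH] at *
    omega
  · simp only [tyB, tyA, pos, Gk_rl, crossG, crossH] at *
    have hi := i.2
    have hv := v.2
    have h1 : (v : ℕ) = 8 ∧ (i : ℕ) + 1 = 2 * k := by
      split_ifs at hz <;> omega
    refine ⟨by omega, ?_⟩
    unfold nxt
    rw [dif_neg (by omega)]
    congr 1
    exact Fin.ext h1.1
  · simp only [tyB, tyA, pos, Gk_rr, chainG] at *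
    have hi := i.2
    have hj := j.2
    have h1 : (j : ℕ) = i + 1 ∧ (i : ℕ) + 1 = c := by omega
    refine ⟨h1.2, ?_⟩
    unfold nxt
    rw [dif_pos (by omega)]
    congr 1
    apply Fin.ext
    simp only
    omega

theorem tyA_or_tyB (k c : ℕ) (hc2 : c ≤ 2 * k) (u : V k) (hu : pos k u ≤ c) :
    tyA k u ∨ tyB k u := by
  rcases u with u | i
  · simp only [tyA, tyB, pos] at *
    split_ifs at hu <;> omega
  · simp only [tyA, tyB] at *
    omega

theorem tyA_not_tyB (k : ℕ) (u : V k) (hu : tyA k u) : ¬ tyB k u := by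
  rcases u with u | i
  · simp only [tyA, tyB] at *
    omega
  · simp only [tyA, tyB] at *
    omega

theorem H0_two_nonadj : ∀ u : Fin 11, ∃ z₁ z₂ : Fin 11, z₁ ≠ z₂ ∧ z₁ ≠ u ∧ z₂ ≠ u ∧
    ¬ H0.Adj u z₁ ∧ ¬ H0.Adj u z₂ := by decide

theorem H0_two_adj : ∀ u : Fin 11, ∃ z₁ z₂ : Fin 11, z₁ ≠ z₂ ∧ z₁ ≠ u ∧ z₂ ≠ u ∧
    H0.Adj u z₁ ∧ H0.Adj u z₂ := by decide

/-- No nonempty cut of `H0` is free of violations. -/
theorem H0_cut (X Y : Fin 11 → Prop) (h1 : ∀ x z, X x → z ≠ x → ¬ H0.Adj x z → Y z)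
    (h2 : ∀ y z, Y y → H0.Adj y z → X z) (h3 : ∀ x, X x → Y x → False) :
    ∀ x, ¬ X x ∧ ¬ Y x := by
  have X8 : ¬ X 8 := fun h => h3 10 (h2 9 10 (h1 8 9 h (by decide) (by decide)) (by decide))
    (h1 8 10 h (by decide) (by decide))
  have Y2 : ¬ Y 2 := fun h => X8 (h2 2 8 h (by decide))
  have X3 : ¬ X 3 := fun h => Y2 (h1 3 2 h (by decide) (by decide))
  have X4 : ¬ X 4 := fun h => Y2 (h1 4 2 h (by decide) (by decide))
  have X5 : ¬ X 5 := fun h => Y2 (h1 5 2 h (by decide) (by decide))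
  have X6 : ¬ X 6 := fun h => Y2 (h1 6 2 h (by decide) (by decide))
  have Y0 : ¬ Y 0 := fun h => X3 (h2 0 3 h (by decide))
  have Y1 : ¬ Y 1 := fun h => X5 (h2 1 5 h (by decide))
  have X7 : ¬ X 7 := fun h => Y0 (h1 7 0 h (by decide) (by decide))
  have X0 : ¬ X 0 := fun h => Y1 (h1 0 1 h (by decide) (by decide))
  have X1 : ¬ X 1 := fun h => Y0 (h1 1 0 h (by decide) (by decide))
  have X2 : ¬ X 2 := fun h => Y0 (h1 2 0 h (by decide) (by decide))
  have X9 : ¬ X 9 := fun h => Y0 (h1 9 0 h (by decide) (by decide))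
  have X10 : ¬ X 10 := fun h => Y0 (h1 10 0 h (by decide) (by decide))
  have Y3 : ¬ Y 3 := fun h => X4 (h2 3 4 h (by decide))
  have Y4 : ¬ Y 4 := fun h => X3 (h2 4 3 h (by decide))
  have Y5 : ¬ Y 5 := fun h => X3 (h2 5 3 h (by decide))
  have Y6 : ¬ Y 6 := fun h => X3 (h2 6 3 h (by decide))
  have Y7 : ¬ Y 7 := fun h => X3 (h2 7 3 h (by decide))
  have Y8 : ¬ Y 8 := fun h => X3 (h2 8 3 h (by decide))
  have Y9 : ¬ Y 9 := fun h => X3 (h2 9 3 h (by decide))
  have Y10 : ¬ Y 10 := fun h => X3 (h2 10 3 h (by decide))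
  intro x
  fin_cases x
  · exact ⟨X0, Y0⟩
  · exact ⟨X1, Y1⟩
  · exact ⟨X2, Y2⟩
  · exact ⟨X3, Y3⟩
  · exact ⟨X4, Y4⟩
  · exact ⟨X5, Y5⟩
  · exact ⟨X6, Y6⟩
  · exact ⟨X7, Y7⟩
  · exact ⟨X8, Y8⟩
  · exact ⟨X9, Y9⟩
  · exact ⟨X10, Y10⟩

theorem pos_eq {k c : ℕ} (hc1 : 1 ≤ c) (hc2 : c ≤ 2 * k) {u : V k} (hu : pos k u = c) :
    u = .inr ⟨c - 1, by omega⟩ := by
  rcases u with u | i
  · simp only [pos] at hu
    split_ifs at hu <;> omega
  · simp only [pos] at hu
    congr 1
    apply Fin.ext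
    simp only
    omega

/-- If an induced subgraph of `Gk k` misses a chain vertex then it does not force `H0`. -/
theorem not_forces {k : ℕ} {W : Type*} [Fintype W] (G' : SimpleGraph W) (ψ : G' ↪g Gk k)
    (i0 : Fin (2 * k)) (hmiss : ∀ w, ψ w ≠ Sum.inr i0) : ¬ Forces G' := by
  classical
  rintro ⟨H, hdeg, ⟨φ⟩⟩
  have hi0 := i0.2
  let X : ℕ → Finset W := fun c => Finset.univ.filter (fun w => tyB k (ψ w) ∧ pos k (ψ w) ≤ c)
  let Y : ℕ → Finset W := fun c => Finset.univ.filter (fun w => tyA k (ψ w) ∧ pos k (ψ w) ≤ c)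
  have memX : ∀ c w, w ∈ X c ↔ (tyB k (ψ w) ∧ pos k (ψ w) ≤ c) := by
    intro c w; simp [X]
  have memY : ∀ c w, w ∈ Y c ↔ (tyA k (ψ w) ∧ pos k (ψ w) ≤ c) := by
    intro c w; simp [Y]
  have hdisj : ∀ c, Disjoint (X c) (Y c) := by
    intro c
    rw [Finset.disjoint_left]
    intro w hw hw'
    rw [memX] at hw
    rw [memY] at hw'
    exact tyA_not_tyB k _ hw'.1 hw.1
  have hviol : ∀ c, 1 ≤ c → c ≤ 2 * k → ∀ p ∈ violSet G' (X c) (Y c),
      pos k (ψ p.1) = c ∧ ψ p.2 = nxt k c := by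
    intro c hc1 hc2 p hp
    rw [mem_violSet, memX, memY, memX, memY] at hp
    rcases hp with ⟨h1, h2, h3, h4⟩ | ⟨h1, h2, h3⟩
    · exact viol_B k c hc1 _ _ h1.1 h1.2 h2 (fun h => h3 (ψ.injective h))
        (fun h => h4 (ψ.map_adj_iff.1 h))
    · exact viol_A k c hc1 hc2 _ _ h1.1 h1.2 h2 (ψ.map_adj_iff.2 h3)
  have hle1 : ∀ c, 1 ≤ c → c ≤ 2 * k → (violSet H (X c) (Y c)).card ≤ 1 := by
    intro c hc1 hc2
    rw [← violSet_card_eq hdeg _ _ (hdisj c), Finset.card_le_one]
    intro p hp p' hp'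
    obtain ⟨h1, h2⟩ := hviol c hc1 hc2 p hp
    obtain ⟨h1', h2'⟩ := hviol c hc1 hc2 p' hp'
    apply Prod.ext
    · exact ψ.injective ((pos_eq hc1 hc2 h1).trans (pos_eq hc1 hc2 h1').symm)
    · exact ψ.injective (h2.trans h2'.symm)
  have hzero : violSet H (X (i0 + 1)) (Y (i0 + 1)) = ∅ := by
    rw [← Finset.card_eq_zero, ← violSet_card_eq hdeg _ _ (hdisj _), Finset.card_eq_zero,
      Finset.eq_empty_iff_forall_notMem]
    intro p hp
    obtain ⟨h1, -⟩ := hviol (i0 + 1) (by omega) (by omega) p hp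
    exact hmiss p.1 (pos_eq (by omega) (by omega) h1)
  have step1 : ∀ u : Fin 11, (i0 : ℕ) + 1 < pos k (ψ (φ u)) := by
    have := H0_cut (fun u => φ u ∈ X (i0 + 1)) (fun u => φ u ∈ Y (i0 + 1)) ?_ ?_ ?_
    · intro u
      by_contra hcon
      push Not at hcon
      have hu := this u
      rcases tyA_or_tyB k (i0 + 1) (by omega) _ hcon with h | h
      · exact hu.2 ((memY _ _).2 ⟨h, hcon⟩)
      · exact hu.1 ((memX _ _).2 ⟨h, hcon⟩)
    · intro x z hx hzx hadj
      by_contra hz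
      have : (φ x, φ z) ∈ violSet H (X (i0 + 1)) (Y (i0 + 1)) := by
        rw [mem_violSet]
        exact Or.inl ⟨hx, hz, fun h => hzx (φ.injective h), fun h => hadj (φ.map_adj_iff.1 h)⟩
      rw [hzero] at this
      exact absurd this (Finset.notMem_empty _)
    · intro x z hx hadj
      by_contra hz
      have : (φ x, φ z) ∈ violSet H (X (i0 + 1)) (Y (i0 + 1)) := by
        rw [mem_violSet]
        exact Or.inr ⟨hx, hz, φ.map_adj_iff.2 hadj⟩
      rw [hzero] at this
      exact absurd this (Finset.notMem_empty _)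
    · intro x hx hy
      exact (Finset.disjoint_left.1 (hdisj _)) hx hy
  -- a core vertex mapped into the chain
  have hex : ∃ u : Fin 11, pos k (ψ (φ u)) ≤ 2 * k := by
    by_contra hcon
    push Not at hcon
    have hin : ∀ u : Fin 11, ∃ v : Fin 11, 8 ≤ (v : ℕ) ∧ ψ (φ u) = Sum.inl v := by
      intro u
      have h := hcon u
      rcases hx : ψ (φ u) with v | i
      · rw [hx] at h
        simp only [pos] at h
        refine ⟨v, ?_, rfl⟩
        by_contra h8
        rw [if_pos (by omega)] at h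
        omega
      · rw [hx] at h
        simp only [pos] at h
        have := i.2
        omega
    choose g hg8 hg using hin
    have hginj : Function.Injective g := by
      intro a b hab
      have h1 : ψ (φ a) = ψ (φ b) := by rw [hg a, hg b, hab]
      exact φ.injective (ψ.injective h1)
    have hcard : (Finset.univ.image g).card = 11 := by
      rw [Finset.card_image_of_injective _ hginj]
      simp
    have hsub : Finset.univ.image g ⊆ Finset.univ.filter (fun v : Fin 11 => 8 ≤ (v : ℕ)) := by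
      intro v hv
      rw [Finset.mem_image] at hv
      obtain ⟨u, -, rfl⟩ := hv
      simp [hg8 u]
    have hle := Finset.card_le_card hsub
    have h3 : (Finset.univ.filter (fun v : Fin 11 => 8 ≤ (v : ℕ))).card = 3 := by decide
    omega
  -- the lowest one
  obtain ⟨u1, -, hu1⟩ := Finset.exists_min_image (Finset.univ : Finset (Fin 11))
    (fun u => pos k (ψ (φ u))) ⟨0, Finset.mem_univ _⟩
  set m := pos k (ψ (φ u1)) with hm
  have hm2 : m ≤ 2 * k := by
    obtain ⟨u, hu⟩ := hex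
    exact (hu1 u (Finset.mem_univ _)).trans hu
  have hm1 : 1 ≤ m := by
    have := step1 u1
    omega
  have hlow : ∀ z : Fin 11, z ≠ u1 → m < pos k (ψ (φ z)) := by
    intro z hz
    rcases lt_or_eq_of_le (hu1 z (Finset.mem_univ _)) with h | h
    · exact h
    · exfalso
      apply hz
      have h1 := pos_eq hm1 hm2 h.symm
      have h2 := pos_eq hm1 hm2 hm.symm
      exact φ.injective (ψ.injective (h1.trans h2.symm))
  have hcardle := hle1 m hm1 hm2
  rw [Finset.card_le_one] at hcardle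
  rcases tyA_or_tyB k m hm2 _ (le_of_eq hm.symm) with hA | hB
  · obtain ⟨z₁, z₂, hz12, hz1, hz2, ha1, ha2⟩ := H0_two_adj u1
    have h1 : (φ u1, φ z₁) ∈ violSet H (X m) (Y m) := by
      rw [mem_violSet]
      refine Or.inr ⟨(memY _ _).2 ⟨hA, le_of_eq hm.symm⟩, fun h => ?_, φ.map_adj_iff.2 ha1⟩
      exact absurd ((memX _ _).1 h).2 (not_le.2 (hlow z₁ hz1))
    have h2 : (φ u1, φ z₂) ∈ violSet H (X m) (Y m) := by
      rw [mem_violSet]
      refine Or.inr ⟨(memY _ _).2 ⟨hA, le_of_eq hm.symm⟩, fun h => ?_, φ.map_adj_iff.2 ha2⟩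
      exact absurd ((memX _ _).1 h).2 (not_le.2 (hlow z₂ hz2))
    exact hz12 (φ.injective (Prod.ext_iff.1 (hcardle _ h1 _ h2)).2)
  · obtain ⟨z₁, z₂, hz12, hz1, hz2, ha1, ha2⟩ := H0_two_nonadj u1
    have h1 : (φ u1, φ z₁) ∈ violSet H (X m) (Y m) := by
      rw [mem_violSet]
      refine Or.inl ⟨(memX _ _).2 ⟨hB, le_of_eq hm.symm⟩, fun h => ?_,
        fun h => hz1 (φ.injective h), fun h => ha1 (φ.map_adj_iff.1 h)⟩
      exact absurd ((memY _ _).1 h).2 (not_le.2 (hlow z₁ hz1))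
    have h2 : (φ u1, φ z₂) ∈ violSet H (X m) (Y m) := by
      rw [mem_violSet]
      refine Or.inl ⟨(memX _ _).2 ⟨hB, le_of_eq hm.symm⟩, fun h => ?_,
        fun h => hz2 (φ.injective h), fun h => ha2 (φ.map_adj_iff.1 h)⟩
      exact absurd ((memY _ _).1 h).2 (not_le.2 (hlow z₂ hz2))
    exact hz12 (φ.injective (Prod.ext_iff.1 (hcardle _ h1 _ h2)).2)

/-! ### The minimal forcing set -/

/-- isomorphism of finite graphs -/
def isoSetoid : Setoid FinGraph where
  r X Y := Nonempty (X.2 ≃g Y.2)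
  iseqv := ⟨fun _ => ⟨SimpleGraph.Iso.refl⟩, fun ⟨e⟩ => ⟨e.symm⟩, fun ⟨e⟩ ⟨f⟩ => ⟨e.trans f⟩⟩

/-- minimal among the graphs which force `H0` -/
def IsMin (X : FinGraph) : Prop :=
  Forces X.2 ∧ ∀ Y : FinGraph, Y.1 < X.1 → Nonempty (Y.2 ↪g X.2) → ¬ Forces Y.2

/-- representatives of the minimal graphs which force `H0` -/
noncomputable def theF : Set FinGraph :=
  {X | IsMin X ∧ (Quotient.mk isoSetoid X).out = X}

theorem card_le_of_embedding {X Y : FinGraph} (e : X.2 ↪g Y.2) : X.1 ≤ Y.1 := by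
  simpa using Fintype.card_le_of_injective e e.injective

/-- An embedding between graphs with equally many vertices is an isomorphism. -/
theorem iso_of_embedding {X Y : FinGraph} (e : X.2 ↪g Y.2) (h : X.1 = Y.1) :
    Nonempty (X.2 ≃g Y.2) := by
  have hbij : Function.Bijective e := by
    rw [Fintype.bijective_iff_injective_and_card]
    exact ⟨e.injective, by simpa using h⟩
  exact ⟨⟨Equiv.ofBijective e hbij, by intro a b; exact e.map_adj_iff⟩⟩

theorem theF_noniso {X Y : FinGraph} (hX : X ∈ theF) (hY : Y ∈ theF)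
    (h : Nonempty (X.2 ≃g Y.2)) : X = Y := by
  have h1 : Quotient.mk isoSetoid X = Quotient.mk isoSetoid Y := Quotient.sound h
  rw [← hX.2, ← hY.2, h1]

theorem IsMin.iso {X Y : FinGraph} (hX : IsMin X) (e : X.2 ≃g Y.2) : IsMin Y := by
  have hc : X.1 = Y.1 := by simpa using Fintype.card_congr e.toEquiv
  refine ⟨Forces.mono e.toEmbedding hX.1, ?_⟩
  rintro Z hZ ⟨f⟩
  exact hX.2 Z (by omega) ⟨f.trans e.symm.toEmbedding⟩

theorem exists_mem_theF {X : FinGraph} (hX : IsMin X) : ∃ Y ∈ theF, Nonempty (Y.2 ≃g X.2) := by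
  have h1 : Nonempty (X.2 ≃g ((Quotient.mk isoSetoid X).out).2) := by
    have := Quotient.mk_out (s := isoSetoid) X
    obtain ⟨e⟩ := this
    exact ⟨e.symm⟩
  obtain ⟨e⟩ := h1
  refine ⟨(Quotient.mk isoSetoid X).out, ⟨hX.iso e, ?_⟩, ⟨e.symm⟩⟩
  rw [Quotient.out_eq]

theorem exists_embedding_of_forces (X : FinGraph) (hX : Forces X.2) :
    ∃ Y ∈ theF, Nonempty (Y.2 ↪g X.2) := by
  classical
  have hex : ∃ n : ℕ, ∃ Y : FinGraph, Y.1 = n ∧ Forces Y.2 ∧ Nonempty (Y.2 ↪g X.2) :=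
    ⟨X.1, X, rfl, hX, ⟨SimpleGraph.Embedding.refl⟩⟩
  obtain ⟨Y, hY1, hY2, ⟨e⟩⟩ := Nat.find_spec hex
  have hmin : IsMin Y := by
    refine ⟨hY2, ?_⟩
    rintro Z hZ ⟨f⟩ hZF
    exact Nat.find_min hex (by rw [← hY1]; exact hZ) ⟨Z, rfl, hZF, ⟨f.trans e⟩⟩
  obtain ⟨Z, hZ, ⟨f⟩⟩ := exists_mem_theF hmin
  exact ⟨Z, hZ, ⟨f.toEmbedding.trans e⟩⟩

theorem not_isFree_iff (X : FinGraph) : ¬ IsFree theF X ↔ Forces X.2 := by
  constructor
  · intro h
    unfold IsFree at h
    push Not at h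
    obtain ⟨Y, hY, ⟨e⟩⟩ := h
    exact Forces.mono e hY.1.1
  · intro h hfree
    obtain ⟨Y, hY, ⟨e⟩⟩ := exists_embedding_of_forces X h
    exact (hfree Y hY).false e

theorem theF_isDSF : IsDSF theF := by
  refine ⟨?_, ?_⟩
  · obtain ⟨Y, hY, -⟩ := exists_embedding_of_forces ⟨11, H0⟩
      ⟨H0, fun _ => rfl, ⟨SimpleGraph.Embedding.refl⟩⟩
    exact ⟨Y, hY⟩
  · intro n H H' hd hfree
    by_contra hcon
    rw [not_isFree_iff] at hcon
    exact (not_isFree_iff ⟨n, H⟩).2 (Forces.of_degSeq (H := H') (H' := H) hd.symm hcon) hfree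

theorem degSeq_eq_of_sameDeg {n : ℕ} {G H : SimpleGraph (Fin n)} (h : SameDeg G H) :
    degSeq G = degSeq H := by
  unfold degSeq
  congr 1
  funext v
  exact h v

theorem theF_minimal (F' : Set FinGraph) (hF' : F' ⊂ theF) (hne : F'.Nonempty) :
    ¬ IsDSF F' := by
  classical
  rintro ⟨-, hdsf⟩
  -- a smallest member of `F'`
  have hex : ∃ n : ℕ, ∃ Y ∈ F', Y.1 = n := by
    obtain ⟨Y, hY⟩ := hne
    exact ⟨Y.1, Y, hY, rfl⟩
  obtain ⟨G, hG, hG1⟩ := Nat.find_spec hex
  have hGmin : ∀ Y ∈ F', G.1 ≤ Y.1 := by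
    intro Y hY
    rw [hG1]
    exact Nat.find_min' hex ⟨Y, hY, rfl⟩
  -- `F'`-freeness fails for every graph which forces `H0` once it fails for graphs containing `H0`
  obtain ⟨H, hdeg, ⟨φ⟩⟩ := (hF'.1 hG).1.1
  have hH : ¬ IsFree F' ⟨G.1, H⟩ := by
    intro hfree
    have := hdsf G.1 H G.2 (degSeq_eq_of_sameDeg hdeg).symm hfree
    exact (this G hG).false SimpleGraph.Embedding.refl
  unfold IsFree at hH
  push Not at hH
  obtain ⟨Y, hY, ⟨e⟩⟩ := hH
  have hYle : Y.1 ≤ G.1 := card_le_of_embedding (Y := ⟨G.1, H⟩) e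
  have hYeq : Y.1 = G.1 := le_antisymm hYle (hGmin Y hY)
  obtain ⟨f⟩ := iso_of_embedding (X := Y) (Y := ⟨G.1, H⟩) e hYeq
  have g : H0 ↪g Y.2 := φ.trans f.symm.toEmbedding
  have hYF := hF'.1 hY
  have h11 : Y.1 = 11 := by
    have hle : 11 ≤ Y.1 := card_le_of_embedding (X := ⟨11, H0⟩) (Y := Y) g
    by_contra hne'
    have hlt : (⟨11, H0⟩ : FinGraph).1 < Y.1 := lt_of_le_of_ne hle (fun h => hne' h.symm)
    exact hYF.1.2 ⟨11, H0⟩ hlt ⟨g⟩ ⟨H0, fun _ => rfl, ⟨SimpleGraph.Embedding.refl⟩⟩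
  obtain ⟨g'⟩ := iso_of_embedding (X := ⟨11, H0⟩) (Y := Y) g h11.symm
  apply hF'.2
  intro X hX
  obtain ⟨K, hK, ⟨χ⟩⟩ := hX.1.1
  have hKfree : ¬ IsFree F' ⟨X.1, K⟩ := by
    intro hfree
    exact (hfree Y hY).false (g'.symm.toEmbedding.trans χ)
  have hXfree : ¬ IsFree F' X := by
    intro hfree
    exact hKfree (hdsf X.1 X.2 K (degSeq_eq_of_sameDeg hK) hfree)
  unfold IsFree at hXfree
  push Not at hXfree
  obtain ⟨Z, hZ, ⟨ζ⟩⟩ := hXfree
  have hZF := hF'.1 hZ
  have hZX : Z.1 = X.1 := by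
    by_contra hne'
    exact hX.1.2 Z (lt_of_le_of_ne (card_le_of_embedding ζ) hne') ⟨ζ⟩ hZF.1.1
  have hiso := iso_of_embedding ζ hZX
  rw [← theF_noniso hZF hX hiso]
  exact hZ

theorem theF_infinite : theF.Infinite := by
  classical
  intro hfin
  obtain ⟨N, hN⟩ : ∃ N : ℕ, ∀ X ∈ theF, X.1 ≤ N := by
    obtain ⟨N, hN⟩ := (hfin.image (fun X : FinGraph => X.1)).bddAbove
    exact ⟨N, fun X hX => hN ⟨X, hX, rfl⟩⟩
  set k := N + 1 with hk
  let e : V k ≃ Fin (Fintype.card (V k)) := Fintype.equivFin _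
  let G : SimpleGraph (Fin (Fintype.card (V k))) := (Gk k).comap e.symm
  have hG1 : Gk k ↪g G := ⟨e.toEmbedding, by intro u v; simp [G]⟩
  have hG2 : G ↪g Gk k := ⟨e.symm.toEmbedding, by intro u v; simp [G]⟩
  obtain ⟨X, hX, ⟨f⟩⟩ := exists_embedding_of_forces ⟨_, G⟩
    (Forces.mono hG1 (forces_Gk k (by omega)))
  have ψ : X.2 ↪g Gk k := f.trans hG2
  -- some chain vertex is missed
  have hmiss : ∃ i0 : Fin (2 * k), ∀ w, ψ w ≠ Sum.inr i0 := by
    by_contra hcon
    push Not at hcon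
    choose g hg using hcon
    have hginj : Function.Injective g := by
      intro a b hab
      have : (Sum.inr a : V k) = Sum.inr b := by rw [← hg a, ← hg b, hab]
      exact Sum.inr_injective this
    have h1 := Fintype.card_le_of_injective g hginj
    simp only [Fintype.card_fin] at h1
    have := hN X hX
    omega
  obtain ⟨i0, hi0⟩ := hmiss
  exact not_forces X.2 ψ i0 hi0 hX.1.1

/-- There is an infinite minimal degree-sequence-forcing set of pairwise non-isomorphic graphs. -/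
theorem result : ∃ F : Set FinGraph, F.Infinite ∧
    (∀ X ∈ F, ∀ Y ∈ F, Nonempty (X.2 ≃g Y.2) → X = Y) ∧ IsMinimalDSF F :=
  ⟨theF, theF_infinite, fun _ hX _ hY h => theF_noniso hX hY h, theF_isDSF, theF_minimal⟩

end Pool.Agent.Results.MP_b4d381_co.InfiniteMinimalDSF
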